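import Pool.Agent.Lib.MP_4a7ffb_al.PSLn

/-!
# MP_4a7ffb_al: Q1 for groups in which any two elements generate a finite subgroup

`G` is a periodic group saturated by a class `X` of finite simple groups of even order, each of
which is 3/2-generated (every nontrivial element belongs to a generating pair; this holds for
all finite simple groups, Guralnick-Kantor and Stein).
-/

namespace Pool.Agent.Results.MP_4a7ffb_al.BinaryCriterion

open Pool.Agent.MP_4a7ffb

universe u v w

/-- Every nontrivial element of `M` belongs to a pair of elements generating `M`. -/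
def ThreeHalvesGenerated (M : Type*) [Group M] : Prop :=
  ∀ b : M, b ≠ 1 → ∃ a : M, Subgroup.closure ({a, b} : Set M) = ⊤

private theorem finite_of_le {G : Type v} [Group G] {A B : Subgroup G} (h : A ≤ B)
    (hB : Finite B) : Finite A :=
  Finite.of_injective (Subgroup.inclusion h) (Subgroup.inclusion_injective h)

/-- Some nontrivial element of `G` is joined to each of its conjugates by a chain of nontrivial
elements in which neighbours lie in a common cyclic subgroup. -/
def HasJoinedClass (G : Type*) [Group G] : Prop :=
  ∃ t : G, t ≠ 1 ∧ ∀ g : G, Relation.ReflTransGen CyclicAdj t (g * t * g⁻¹)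

/-- The binary criterion. Let `X` be a class of finite simple groups of even order, each of
which is 3/2-generated, and let `G` be a periodic group saturated by `X`. If the involutions are
joined in every member of `X`, then `G` has a joined class; and if `G` has a joined class, then
the following are equivalent: `G` is locally finite; `G` is the union of a directed family of
subgroups isomorphic to members of `X`; any two elements of `G` generate a finite subgroup;
`a` and `c` generate a finite subgroup whenever, for some power `b` of `c`, the elements `a` and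
`b` generate a subgroup isomorphic to a member of `X`. The involutions are joined in `PSL_n(F)`
for `n ≥ 3` and every finite field `F` with `q` elements, if `q` is odd or `q - 1` does not
divide `n`. -/
theorem result {X : GroupClass.{u}}
    (hX : ∀ (M : Type u) (inst : Group M), X M inst →
      Finite M ∧ IsSimpleGroup M ∧ 2 ∣ Nat.card M ∧ @ThreeHalvesGenerated M inst)
    {G : Type v} [Group G] (hper : Periodic G) (hsat : SaturatedBy X G) :
    ((∀ (M : Type u) (inst : Group M), X M inst → @InvolutionsJoined M inst) →
      HasJoinedClass G) ∧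
    (HasJoinedClass G →
      [LocallyFin G,
        DirectedUnion X G,
        ∀ a c : G, Finite (Subgroup.closure ({a, c} : Set G)),
        ∀ a c : G, ∀ b ∈ Subgroup.zpowers c, IsMember X (Subgroup.closure ({a, b} : Set G)) →
          Finite (Subgroup.closure ({a, c} : Set G))].TFAE) ∧
    (∀ (n : ℕ) (F : Type w) [Field F] [Finite F], 3 ≤ n →
      (Odd (Nat.card F) ∨ ¬ (Nat.card F - 1 ∣ n)) →
      InvolutionsJoined (Matrix.ProjectiveSpecialLinearGroup (Fin n) F)) := by
  have hfin : ∀ (M : Type u) (inst : Group M), X M inst → Finite M :=
    fun M inst hM => (hX M inst hM).1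
  have heven : ∀ (M : Type u) (inst : Group M), X M inst → 2 ∣ Nat.card M :=
    fun M inst hM => (hX M inst hM).2.2.1
  refine ⟨?_, fun hG => ?_, fun _ F _ _ hn hq => involutionsJoined_PSL hn F hq⟩
  · intro hJ
    have hJG := involutionsJoined_of_members hper hsat hJ
    obtain ⟨L₀, -, hm₀⟩ := hsat ⊥ inferInstance
    obtain ⟨t, -, ht⟩ := exists_involution hfin heven hm₀
    refine ⟨t, ne_one_of_orderOf_eq_two ht, fun g => hJG t _ ht ?_⟩
    have h1 := orderOf_injective (MulAut.conj g).toMonoidHom (MulAut.conj g).injective t
    have h2 : orderOf (g * t * g⁻¹) = orderOf t := by simpa using h1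
    exact h2.trans ht
  tfae_have 1 → 2 := directedUnion_of_locallyFin hfin hsat
  tfae_have 2 → 1 := locallyFin_of_directedUnion hfin
  tfae_have 1 → 3 := by
    intro h a c
    refine h _ ?_
    exact (Subgroup.fg_iff _).mpr ⟨{a, c}, rfl, by simp⟩
  tfae_have 3 → 4 := fun h a c _ _ _ => h a c
  tfae_have 4 → 1 := by
    intro h
    obtain ⟨t, ht1, hjoin⟩ := hG
    obtain ⟨L₀, hL₀, hm₀⟩ := hsat _ (finite_zpowers_of_torsion hper t)
    have ht₀ : t ∈ L₀ := hL₀ (Subgroup.mem_zpowers t)
    have hconj : ∀ c ∈ {x : G | ∃ g : G, x = g * t * g⁻¹}, ∀ g : G,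
        g * c * g⁻¹ ∈ {x : G | ∃ g : G, x = g * t * g⁻¹} := by
      rintro _ ⟨k, rfl⟩ g
      exact ⟨g * k, by group⟩
    have htop : Subgroup.closure {x : G | ∃ g : G, x = g * t * g⁻¹} = ⊤ :=
      closure_eq_top (X := X) hper hsat
        (fun M inst hM => ⟨(hX M inst hM).1, (hX M inst hM).2.1, (hX M inst hM).2.2.1⟩)
        hconj ⟨1, by group⟩ ht1
    refine locallyFin_of_chain (X := X) hfin hsat {x : G | ∃ g : G, x = g * t * g⁻¹} htop
      CyclicAdj L₀ hm₀ ?_ ?_
    · -- adjacent elements can be added
      rintro L hL - x hx y ⟨hx0, -, c, hxc, hyc⟩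
      have hL' := hL
      obtain ⟨M, inst, hM, ⟨e⟩⟩ := hL'
      have hx1 : e ⟨x, hx⟩ ≠ 1 := by
        intro h1
        have h2 : (⟨x, hx⟩ : L) = 1 := by
          apply e.injective
          rw [h1, map_one]
        exact hx0 (congrArg Subtype.val h2)
      obtain ⟨a, ha⟩ := (hX M inst hM).2.2.2 _ hx1
      have hcl := closure_image_eq e _ ha
      rw [Set.image_pair] at hcl
      simp only [MulEquiv.symm_apply_apply] at hcl
      set a' : G := ((e.symm a : L) : G) with ha'
      have hmem : IsMember X (Subgroup.closure ({a', x} : Set G)) := by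
        rw [hcl]
        exact hL
      refine finite_of_le ?_ (h a' c x hxc hmem)
      have hc : c ∈ Subgroup.closure ({a', c} : Set G) := Subgroup.subset_closure (by simp)
      have hzc : Subgroup.zpowers c ≤ Subgroup.closure ({a', c} : Set G) :=
        Subgroup.zpowers_le.mpr hc
      rw [sup_le_iff]
      constructor
      · rw [← hcl, Subgroup.closure_le]
        rintro g hg
        rcases hg with rfl | hg
        · exact Subgroup.subset_closure (by simp)
        · rw [Set.mem_singleton_iff] at hg
          subst hg
          exact hzc hxc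
      · exact Subgroup.zpowers_le.mpr (hzc hyc)
    · -- every conjugate of `t` is joined to `t`
      rintro _ ⟨g, rfl⟩
      exact ⟨t, ht₀, hjoin g⟩
  tfae_finish

end Pool.Agent.Results.MP_4a7ffb_al.BinaryCriterion
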