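import Pool.Agent.Lib.MP_4a7ffb_al.Sat

/-!
# MP_4a7ffb_al: a criterion for Q1 in terms of finitely many elements of a normal subset

`G` is a periodic group saturated by a class `X` of finite simple groups of even order, and `C`
is a conjugation-invariant subset of `G`, for instance the set of the involutions or one
conjugacy class.
-/

namespace Pool.Agent.Results.MP_4a7ffb_al.InvolutionCriterion

open Pool.Agent.MP_4a7ffb

universe u v

private theorem finite_of_le {G : Type v} [Group G] {A B : Subgroup G} (h : A ≤ B)
    (hB : Finite B) : Finite A :=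
  Finite.of_injective (Subgroup.inclusion h) (Subgroup.inclusion_injective h)

/-- The criterion. Let `X` be a class of finite simple groups of even order, `G` a periodic
group saturated by `X`, and `C` a conjugation-invariant set of elements of `G` containing some
`t ≠ 1`, such that every subgroup `L` of `G` isomorphic to a member of `X` and containing a
nontrivial element of `C` is generated by `r` elements of `C`. The following are equivalent: `G`
is locally finite; `G` is the union of a directed family of subgroups isomorphic to members of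
`X`; any `r + 1` elements of `C` generate a finite subgroup; the subgroup generated by `L` and
`u` is finite for every such `L` and every `u ∈ C`. If moreover the commuting graph on the
nontrivial elements of `C` is connected, it is enough that this holds when `u` commutes with
some nontrivial element of `C` in `L`. -/
theorem result {X : GroupClass.{u}}
    (hX : ∀ (M : Type u) (inst : Group M), X M inst →
      Finite M ∧ IsSimpleGroup M ∧ 2 ∣ Nat.card M)
    {G : Type v} [Group G] (hper : Periodic G) (hsat : SaturatedBy X G)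
    {C : Set G} (hC : ∀ c ∈ C, ∀ g : G, g * c * g⁻¹ ∈ C) {t : G} (htC : t ∈ C) (ht : t ≠ 1)
    {r : ℕ}
    (hgen : ∀ L : Subgroup G, IsMember X L → (∃ x ∈ L, x ∈ C ∧ x ≠ 1) →
      ∃ s : Fin r → G, (∀ i, s i ∈ C) ∧ Subgroup.closure (Set.range s) = L) :
    [LocallyFin G,
      DirectedUnion X G,
      ∀ s : Fin (r + 1) → G, (∀ i, s i ∈ C) → Finite (Subgroup.closure (Set.range s)),
      ∀ L : Subgroup G, IsMember X L → (∃ x ∈ L, x ∈ C ∧ x ≠ 1) → ∀ u ∈ C,
        Finite ↥(L ⊔ Subgroup.zpowers u)].TFAE ∧
    ((∀ x ∈ C, ∀ y ∈ C, x ≠ 1 → y ≠ 1 →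
        Relation.ReflTransGen
          (fun a b : G => (a ∈ C ∧ a ≠ 1) ∧ (b ∈ C ∧ b ≠ 1) ∧ Commute a b) x y) →
      (LocallyFin G ↔
        ∀ L : Subgroup G, IsMember X L → ∀ x ∈ L, x ∈ C → x ≠ 1 → ∀ u ∈ C, Commute x u →
          Finite ↥(L ⊔ Subgroup.zpowers u))) := by
  have hfin : ∀ (M : Type u) (inst : Group M), X M inst → Finite M :=
    fun M inst hM => (hX M inst hM).1
  have htop := closure_eq_top hper hsat hX hC htC ht
  obtain ⟨L₀, hL₀, hm₀⟩ := hsat _ (finite_zpowers_of_torsion hper t)
  have ht₀ : t ∈ L₀ := hL₀ (Subgroup.mem_zpowers t)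
  have h14 : LocallyFin G → ∀ L : Subgroup G, IsMember X L → ∀ u : G,
      Finite ↥(L ⊔ Subgroup.zpowers u) := by
    intro h L hL u
    have := finite_of_isMember hfin hL
    have hLfg : L.FG := (Group.fg_iff_subgroup_fg L).mp inferInstance
    refine h _ (Subgroup.FG.sup hLfg ⟨{u}, ?_⟩)
    rw [Finset.coe_singleton, Subgroup.zpowers_eq_closure]
  refine ⟨?_, ?_⟩
  · tfae_have 1 → 2 := directedUnion_of_locallyFin hfin hsat
    tfae_have 2 → 1 := locallyFin_of_directedUnion hfin
    tfae_have 1 → 3 := by
      intro h s _
      exact h _ ((Subgroup.fg_iff _).mpr ⟨Set.range s, rfl, Set.finite_range s⟩)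
    tfae_have 3 → 4 := by
      intro h L hL hx u hu
      obtain ⟨s, hs, hcl⟩ := hgen L hL hx
      have h1 := h (Fin.cons u s) (by
        intro i
        refine Fin.cases ?_ ?_ i
        · simpa using hu
        · intro j
          simpa using hs j)
      refine finite_of_le ?_ h1
      rw [Fin.range_cons, sup_le_iff]
      constructor
      · rw [← hcl]
        exact Subgroup.closure_mono (Set.subset_insert _ _)
      · rw [Subgroup.zpowers_le]
        exact Subgroup.subset_closure (Set.mem_insert _ _)
    tfae_have 4 → 1 := by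
      intro h
      refine locallyFin_of_chain (X := X) hfin hsat C htop (fun _ y => y ∈ C) L₀ hm₀ ?_ ?_
      · intro L hL hle _ _ y hy
        exact h L hL ⟨t, hle ht₀, htC, ht⟩ y hy
      · intro y hy
        exact ⟨1, L₀.one_mem, Relation.ReflTransGen.single hy⟩
    tfae_finish
  · intro hconn
    constructor
    · intro h L hL _ _ _ _ u _ _
      exact h14 h L hL u
    · intro h
      refine locallyFin_of_chain (X := X) hfin hsat C htop
        (fun a b : G => (a ∈ C ∧ a ≠ 1) ∧ (b ∈ C ∧ b ≠ 1) ∧ Commute a b) L₀ hm₀ ?_ ?_
      · intro L hL _ x hx y hy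
        exact h L hL x hx hy.1.1 hy.1.2 y hy.2.1.1 hy.2.2
      · intro y hy
        by_cases hy1 : y = 1
        · exact ⟨1, L₀.one_mem, by rw [hy1]⟩
        · exact ⟨t, ht₀, hconn t htC y hy ht hy1⟩

end Pool.Agent.Results.MP_4a7ffb_al.InvolutionCriterion
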