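import Pool.Agent.Lib.MP_4a7ffb_al.SG.Linear

/-!
# Members with trivial centraliser in a saturated periodic group

`X` is a class of groups. `CentralizerDim d L`: every strictly decreasing chain `C(S_0) > ... > C(S_m)` of centralisers of subsets of
`L` has `m ≤ d`. The finite simple groups of Lie type of rank at most `r` have trivial centre and are linear of a degree `n` which
depends only on `r`, and `d = n ^ 2` is possible for linear groups of degree `n` (last part).

Proof. Otherwise there are members `L_0 < L_1 < ...` above `K` and `z_k ≠ 1` in the centraliser of `L_k` with `z_k ∈ L_(k+1)` (`z_k`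
and `L_k` generate a finite group, because they commute). In `L_(m+1)` the centralisers of `{z_k, ..., z_m}` form a strict chain,
because `L_k` centralises `z_k, ..., z_m`, but not `z_(k-1)`, an element of `L_k`.
-/

namespace Pool.Agent.Results.MP_4a7ffb_al.SelfCentralizing

open SatGrp

universe u

theorem result :
    (∀ (X : ∀ (L : Type u) [Group L], Prop) (d : ℕ),
      (∀ (L : Type u) [Group L], Finite L → X L → Subgroup.center L = ⊥ ∧ CentralizerDim d L) →
      ∀ (G : Type u) [Group G], (∀ x : G, IsOfFinOrder x) → Saturated X G → ∀ K : Subgroup G, Finite K →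
      ∃ L : Subgroup G, K ≤ L ∧ Finite L ∧ X L ∧ ∀ H : Subgroup G, L ≤ H → Subgroup.centralizer (H : Set G) = ⊥ ∧
        (Finite H → Finite (Subgroup.normalizer (H : Set G)))) ∧
    ∀ (n : ℕ) (L : Type u) [Group L], LinearOfDegree n L → CentralizerDim (n ^ 2) L :=
  ⟨fun _ _ hX _ _ ht hs K hK => selfCentral hX ht hs K hK, fun _ _ _ h => h.centralizerDim⟩

end Pool.Agent.Results.MP_4a7ffb_al.SelfCentralizing
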