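import Pool.Agent.Lib.MP_4a7ffb_al.SG.Uniform

/-!
# Periodic groups saturated by uniformly simple finite groups are uniformly simple

`X` is a class of groups. A group is uniformly simple with constant `c` if for all `x ≠ 1` and all `y` the element `y` is a product
of at most `c` conjugates of `x` and `x⁻¹`. The finite simple groups of Lie type of rank at most `n` have even order and are
uniformly simple with a constant depending only on `n` (Ellers-Gordeev-Herzog, Lawther-Liebeck, Liebeck-Shalev).

Proof. Let `x ≠ 1`, `y` be elements of `G`. A member which contains `x` contains an involution `i`, a member which contains `y`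
contains an involution `j`. As `G` is periodic, `i` and `j` generate a finite (dihedral) group, which lies in a third member.
-/

namespace Pool.Agent.Results.MP_4a7ffb_al.UniformSimplicity

open SatGrp

universe u

theorem result (X : ∀ (L : Type u) [Group L], Prop) (c : ℕ)
    (hX : ∀ (L : Type u) [Group L], Finite L → X L → Even (Nat.card L) ∧ UniformlySimple c L)
    (G : Type u) [Group G] (ht : ∀ x : G, IsOfFinOrder x) (hs : Saturated X G) :
    IsSimpleGroup G ∧ UniformlySimple (c ^ 3) G := by
  have h1 := uniform hX ht hs
  have : Nontrivial G := nontrivial_of_saturated (fun L _ hf hL => (hX L hf hL).1) hs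
  exact ⟨h1.isSimple, h1⟩

end Pool.Agent.Results.MP_4a7ffb_al.UniformSimplicity
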